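import Pool.Agent.Run7.h671.EFew

/-!
# The numbers `(n e) ^ (β e)` and `n ^ x e ^ y (e ^ π) ^ z` with exponents in `ℚ̄(e)` or `ℚ̄(e, π)`

The number `e ^ e` is the member `n = 1`, `β = 1` of the family `(n e) ^ (β e)`; another member is
`(n e) ^ (n e)`.

(1) All members of this family with `n ≤ N`, and all the numbers `(n e) ^ (β e + γ)`, `β ≠ 0` and `γ`
algebraic, are transcendental for all but `log₂ N + 1` of the `n ≤ N`. (2), (3) The same for all the
numbers `(n e) ^ x` whose exponents `x` are polynomials or rational functions of bounded degree in `e`,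
or in `e` and `π`, up to a power of `log N`. (4), (5) The same for all products
`n ^ x e ^ y (e ^ π) ^ z` whose exponents `x`, `y`, `z` are such numbers, `x` not algebraic.

The proof. Let `V` be the space of the linear forms in `1` and logarithms of algebraic numbers, with
algebraic coefficients. Suppose that `x_i (s + log a_i)` is in `V` for `i = 0, ..., m`, where
`x_i = P_i / Q_i` are values of rational functions and `s ≠ 0` is algebraic. By Baker's theorem the
`s + log a_i` are linearly independent over the algebraic numbers as soon as the `a_i / a_0` are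
multiplicatively independent. The relations `b (P_i (s + log a_i) - Q_i λ_i) = 0`, `b` a polynomial of
degree less than `D`, are relations between elements of a space of dimension `d`, whose coefficients are
in `V`; by the hyperplane case of the linear subgroup theorem of Waldschmidt and Roy (starting files) at
most `d (d - 1)` of them are linearly independent. For the products in (4) and (5) the elements `1` and
`π` of `V` are used as additional columns (`Pool.Agent.Run7.h671.EX.core'`), which are independent of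
the logarithms of real algebraic numbers.
-/

set_option autoImplicit false

namespace Pool.Agent.Results.MP_58ae59_nt.BasesTimesPowersOfE

open Module Finset
open Pool.Agent.HP778 hiding IsQuot
open Pool.Agent.H301R2.SSE (Lt)
open Pool.Agent.Run7.h671.EX

/-- The linear combinations, with algebraic coefficients, of `1` and of logarithms of algebraic
numbers. -/
noncomputable def LogForms : Submodule (algebraicClosure ℚ ℂ) ℂ :=
  Submodule.span (algebraicClosure ℚ ℂ) ({1} ∪ {z : ℂ | IsAlgebraic ℚ (Complex.exp z)})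

/-- The numbers `e ^ z` with `z` in `LogForms`, i.e. the numbers `e ^ γ α_1 ^ β_1 ⋯ α_k ^ β_k` with
algebraic `γ`, `α_i ≠ 0`, `β_i`. -/
def Prods : Set ℂ := {w | ∃ z ∈ LogForms, Complex.exp z = w}

/-- some power `(a e ^ s) ^ x` with an exponent `x` in `E` is in `Prods` -/
def BadBase (E : Set ℂ) (s a : ℝ) : Prop := ∃ x ∈ E, ((a * Real.exp s : ℝ) : ℂ) ^ x ∈ Prods

/-- For all but few bases `a e ^ s` NO power with exponent in `E` is in `Prods`: if `a_0, ..., a_m`
are positive real algebraic numbers which are bad, and `a_1 / a_0, ..., a_m / a_0` are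
multiplicatively independent, then `m ≤ r`; and at most `(log₂ N + 1) ^ r` integers `n` with
`1 ≤ n ≤ N` are bad. -/
def FewBases (E : Set ℂ) (s : ℝ) (r : ℕ) : Prop :=
  (∀ (m : ℕ) (a₀ : ℝ) (a : Fin m → ℝ), 0 < a₀ → IsAlgebraic ℚ a₀ → (∀ i, 0 < a i) →
    (∀ i, IsAlgebraic ℚ (a i)) → (∀ c : Fin m → ℤ, ∏ i, (a i / a₀) ^ c i = 1 → c = 0) →
    BadBase E s a₀ → (∀ i, BadBase E s (a i)) → m ≤ r) ∧
  ∀ N : ℕ, {n : ℕ | 1 ≤ n ∧ n ≤ N ∧ BadBase E s n}.ncard ≤ (Nat.log 2 N + 1) ^ r

/-- some product `a ^ x e ^ y (e ^ π) ^ z` with exponents `(x, y, z)` in `E` is in `Prods` -/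
def BadProd (E : Set (ℂ × ℂ × ℂ)) (a : ℝ) : Prop :=
  ∃ t ∈ E, (a : ℂ) ^ t.1 * Complex.exp t.2.1 * Complex.exp (Real.pi * t.2.2) ∈ Prods

/-- For all but few bases `a` NO product with exponents in `E` is in `Prods`: at most `r`
multiplicatively independent positive real algebraic numbers `a`, and at most `(log₂ N + 1) ^ r`
integers `n` with `1 ≤ n ≤ N`, are bad. -/
def FewProds (E : Set (ℂ × ℂ × ℂ)) (r : ℕ) : Prop :=
  (∀ (m : ℕ) (a : Fin m → ℝ), (∀ i, 0 < a i) → (∀ i, IsAlgebraic ℚ (a i)) →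
    (∀ c : Fin m → ℤ, ∏ i, a i ^ c i = 1 → c = 0) → (∀ i, BadProd E (a i)) → m ≤ r) ∧
  ∀ N : ℕ, {n : ℕ | 1 ≤ n ∧ n ≤ N ∧ BadProd E n}.ncard ≤ (Nat.log 2 N + 1) ^ r

/-- the exponents `β x + γ` with algebraic `β ≠ 0` and algebraic `γ` -/
def affine (x : ℂ) : Set ℂ :=
  {y | ∃ β γ : ℂ, IsAlgebraic ℚ β ∧ β ≠ 0 ∧ IsAlgebraic ℚ γ ∧ y = β * x + γ}

/-- the values at `x` of the polynomials of degree at least `1` and at most `D` with algebraic
coefficients -/
def polys (x : ℂ) (D : ℕ) : Set ℂ :=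
  {y | ∃ P : Polynomial (algebraicClosure ℚ ℂ), 1 ≤ P.natDegree ∧ P.natDegree ≤ D ∧
    y = Polynomial.aeval x P}

/-- the transcendental numbers `P(t) / Q(t)` with polynomials `P`, `Q` with algebraic coefficients and
of degree at most `D` in each of the `r` variables -/
def rats {r : ℕ} (t : Fin r → ℂ) (D : ℕ) : Set ℂ :=
  {y | Transcendental ℚ y ∧ ∃ P Q : MvPolynomial (Fin r) (algebraicClosure ℚ ℂ),
    (∀ i, P.degreeOf i ≤ D) ∧ (∀ i, Q.degreeOf i ≤ D) ∧ MvPolynomial.aeval t Q ≠ 0 ∧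
    y = MvPolynomial.aeval t P / MvPolynomial.aeval t Q}

/-- the triples of the values at `x` of polynomials `P`, `S`, `T` of degree at most `D` with algebraic
coefficients, `P` nonconstant -/
def polyTriples (x : ℂ) (D : ℕ) : Set (ℂ × ℂ × ℂ) :=
  {y | ∃ P S T : Polynomial (algebraicClosure ℚ ℂ), 1 ≤ P.natDegree ∧ P.natDegree ≤ D ∧
    S.natDegree ≤ D ∧ T.natDegree ≤ D ∧
    y = (Polynomial.aeval x P, Polynomial.aeval x S, Polynomial.aeval x T)}

/-- the triples `(P(t) / Q(t), S(t) / Q(t), T(t) / Q(t))` with polynomials with algebraic coefficients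
and of degree at most `D` in each of the `r` variables, such that `P(t) / Q(t)` is transcendental -/
def ratTriples {r : ℕ} (t : Fin r → ℂ) (D : ℕ) : Set (ℂ × ℂ × ℂ) :=
  {y | Transcendental ℚ y.1 ∧ ∃ P Q S T : MvPolynomial (Fin r) (algebraicClosure ℚ ℂ),
    (∀ i, P.degreeOf i ≤ D) ∧ (∀ i, Q.degreeOf i ≤ D) ∧ (∀ i, S.degreeOf i ≤ D) ∧
    (∀ i, T.degreeOf i ≤ D) ∧ MvPolynomial.aeval t Q ≠ 0 ∧
    y = (MvPolynomial.aeval t P / MvPolynomial.aeval t Q,
      MvPolynomial.aeval t S / MvPolynomial.aeval t Q,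
      MvPolynomial.aeval t T / MvPolynomial.aeval t Q)}

theorem e_tr : Transcendental ℚ (Complex.exp 1) :=
  Pool.Agent.H340R2.LW.transcendental_exp_one_complex

theorem ofReal_cpow' {a : ℝ} (ha : 0 < a) (x : ℂ) :
    (a : ℂ) ^ x = Complex.exp (x * ((Real.log a : ℝ) : ℂ)) := by
  rw [Complex.cpow_def_of_ne_zero (by exact_mod_cast ha.ne'), Complex.ofReal_log ha.le, mul_comm]

theorem mem_base {E : Set ℂ} {s a : ℝ} (ha : 0 < a) (h : BadBase E s a) :
    ∃ x ∈ E, x * ((s : ℂ) + ((Real.log a : ℝ) : ℂ)) ∈ Lt := by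
  obtain ⟨x, hx, z, hz, hze⟩ := h
  rw [ofReal_cpow' (mul_pos ha (Real.exp_pos s)), Real.log_mul ha.ne' (Real.exp_pos s).ne',
    Real.log_exp] at hze
  refine ⟨x, hx, ?_⟩
  have h1 := mem_of_exp hz hze.symm
  rw [Complex.ofReal_add, add_comm] at h1
  exact h1

theorem mem_prod {E : Set (ℂ × ℂ × ℂ)} {a : ℝ} (ha : 0 < a) (h : BadProd E a) :
    ∃ t ∈ E, t.1 * ((Real.log a : ℝ) : ℂ) + (t.2.1 * 1 + t.2.2 * ((Real.pi : ℝ) : ℂ)) ∈ Lt := by
  obtain ⟨x, hx, z, hz, hze⟩ := h
  rw [ofReal_cpow' ha, ← Complex.exp_add, ← Complex.exp_add] at hze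
  refine ⟨x, hx, ?_⟩
  have h1 := mem_of_exp hz hze.symm
  have h2 : x.1 * ((Real.log a : ℝ) : ℂ) + (x.2.1 * 1 + x.2.2 * ((Real.pi : ℝ) : ℂ)) =
      x.1 * ((Real.log a : ℝ) : ℂ) + x.2.1 + (Real.pi : ℂ) * x.2.2 := by ring
  rw [h2]
  exact h1

/-- bounds for the number of independent elements of `LogForms` give `FewBases` -/
theorem fewBases_of {E : Set ℂ} {s : ℝ} (hs : IsAlgebraic ℚ s) (hs0 : s ≠ 0) {r : ℕ}
    (h : ∀ (m : ℕ) (l : Fin m → ℂ), LinearIndependent (algebraicClosure ℚ ℂ) l →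
      (∀ i, l i ∈ Lt) → (∀ i, ∃ x ∈ E, x * l i ∈ Lt) → m ≤ r + 1) : FewBases E s r := by
  have hs' : IsAlgebraic ℚ (s : ℂ) := hs.algebraMap (A := ℂ)
  have hs0' : (s : ℂ) ≠ 0 := by exact_mod_cast hs0
  refine ⟨fun m a₀ a ha₀ ha₀' ha ha' hm h0 hi => ?_, fun N => ?_⟩
  · refine bases_core h hs' hs0' a₀ a ha₀ ha₀' ha ha' ?_ (mem_base ha₀ h0)
      fun i => mem_base (ha i) (hi i)
    have h1 := real_log_indep (fun i => a i / a₀) (fun i => div_pos (ha i) ha₀) hm
    have h2 : (fun i => ((Real.log (a i / a₀) : ℝ) : ℂ)) =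
        fun i => ((Real.log (a i) : ℝ) : ℂ) - ((Real.log a₀ : ℝ) : ℂ) := by
      funext i
      rw [Real.log_div (ha i).ne' ha₀.ne', Complex.ofReal_sub]
    rwa [h2] at h1
  · refine bases_count h hs' hs0' N _ fun n hn => ?_
    obtain ⟨h1, h2, h3⟩ := hn
    exact ⟨h1, h2, mem_base (by exact_mod_cast h1) h3⟩

/-- bounds for the number of independent logarithms give `FewProds` -/
theorem fewProds_of {E : Set (ℂ × ℂ × ℂ)} {r : ℕ}
    (h : ∀ (m : ℕ) (l : Fin m → ℝ), (∀ i, IsAlgebraic ℚ (Complex.exp (l i : ℂ))) →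
      LinearIndependent ℚ (fun i => (l i : ℂ)) →
      (∀ i, ∃ t ∈ E, t.1 * (l i : ℂ) + (t.2.1 * 1 + t.2.2 * ((Real.pi : ℝ) : ℂ)) ∈ Lt) →
      m ≤ r) : FewProds E r := by
  refine ⟨fun m a ha ha' hm hi => ?_, fun N => ?_⟩
  · exact h m (fun i => Real.log (a i)) (fun i => exp_log_real (ha i) (ha' i))
      (real_log_indep a ha hm) fun i => mem_prod (ha i) (hi i)
  · have h1 := pairs_count (r := r) (fun n => 1 ≤ n ∧ BadProd E n) (fun m l hl hli hn => ?_) N
    · refine le_trans (le_of_eq ?_) h1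
      congr 1
      ext n
      constructor
      · rintro ⟨h1, h2, h3⟩
        exact ⟨h1, h2, h1, h3⟩
      · rintro ⟨h1, h2, -, h3⟩
        exact ⟨h1, h2, h3⟩
    · refine h m l hl hli fun i => ?_
      obtain ⟨n, hln, hn1, hn2⟩ := hn i
      rw [hln]
      exact mem_prod (by exact_mod_cast hn1) hn2

/-- `β x + γ` is the value of a polynomial of degree one -/
theorem affine_poly {x y : ℂ} (h : y ∈ affine x) : ∃ P : Polynomial (algebraicClosure ℚ ℂ),
    1 ≤ P.natDegree ∧ P.natDegree ≤ 1 ∧ y = Polynomial.aeval x P := by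
  obtain ⟨β, γ, hβ, hβ0, hγ, rfl⟩ := h
  let b : algebraicClosure ℚ ℂ := ⟨β, mem_algebraicClosure_iff.2 hβ⟩
  let c : algebraicClosure ℚ ℂ := ⟨γ, mem_algebraicClosure_iff.2 hγ⟩
  have hb : b ≠ 0 := fun h => hβ0 (congrArg Subtype.val h)
  refine ⟨Polynomial.C b * Polynomial.X + Polynomial.C c, ?_, ?_, ?_⟩
  · rw [Polynomial.natDegree_linear hb]
  · rw [Polynomial.natDegree_linear hb]
  · rw [map_add, map_mul, Polynomial.aeval_C, Polynomial.aeval_C, Polynomial.aeval_X]
    rfl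

theorem part_poly {x : ℂ} (hx : Transcendental ℚ x) {s : ℝ} (hs : IsAlgebraic ℚ s) (hs0 : s ≠ 0)
    {D : ℕ} (hD : 1 ≤ D) : FewBases (polys x D) s (4 * D - 3) := by
  refine fewBases_of hs hs0 fun m l hl hlL h => ?_
  have h1 := lt_poly hx hD m l hl hlL fun i => by
    obtain ⟨y, ⟨P, h1, h2, rfl⟩, hy⟩ := h i
    exact ⟨P, h1, h2, hy⟩
  omega

theorem part_rat {r : ℕ} (t : Fin r → ℂ) {s : ℝ} (hs : IsAlgebraic ℚ s) (hs0 : s ≠ 0) {D : ℕ}
    (hD : 1 ≤ D) : FewBases (rats t D) s (2 * ((4 * D) ^ r - 2 ^ r) - 1) := by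
  refine fewBases_of hs hs0 fun m l hl hlL h => ?_
  have h1 := lt_ratio t hD m l hl hlL fun i => by
    obtain ⟨y, ⟨hy, P, Q, hP, hQ, hQ0, he⟩, hyl⟩ := h i
    exact ⟨y, hy, ⟨P, Q, hP, hQ, hQ0, he⟩, hyl⟩
  omega

theorem part_triple {x : ℂ} (hx : Transcendental ℚ x) {D : ℕ} (hD : 1 ≤ D) :
    FewProds (polyTriples x D) (4 * D - 2) := by
  refine fewProds_of fun m l hl hli h => ?_
  refine poly_bound hx hD (fun i => (l i : ℂ)) ![(1 : ℂ), ((Real.pi : ℝ) : ℂ)]
    (indep_one_pi hl hli) ?_ (fun i => Pool.Agent.H301R2.SSE.Lt_log (hl i)) fun i => ?_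
  · intro j
    fin_cases j
    · exact Pool.Agent.H301R2.SSE.Lt_one
    · exact pi_mem_Lt
  · obtain ⟨y, ⟨P, S, T, h1, h2, h3, h4, rfl⟩, hy⟩ := h i
    refine ⟨P, ![S, T], h1, h2, ?_, ?_⟩
    · intro j
      fin_cases j
      · exact h3
      · exact h4
    · rw [Fin.sum_univ_two]
      exact hy

theorem part_ratTriple {r : ℕ} (t : Fin r → ℂ) {D : ℕ} (hD : 1 ≤ D) :
    FewProds (ratTriples t D) (2 * ((4 * D) ^ r - 2 ^ r)) := by
  refine fewProds_of fun m l hl hli h => ?_
  refine ratio_bound t hD (fun i => (l i : ℂ)) ![(1 : ℂ), ((Real.pi : ℝ) : ℂ)]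
    (indep_one_pi hl hli) ?_ (fun i => Pool.Agent.H301R2.SSE.Lt_log (hl i)) fun i => ?_
  · intro j
    fin_cases j
    · exact Pool.Agent.H301R2.SSE.Lt_one
    · exact pi_mem_Lt
  · obtain ⟨y, ⟨hx, P, Q, S, T, hP, hQ, hS, hT, hQ0, rfl⟩, hy⟩ := h i
    refine ⟨_, ![MvPolynomial.aeval t S / MvPolynomial.aeval t Q,
      MvPolynomial.aeval t T / MvPolynomial.aeval t Q], ⟨P, Q, ![S, T], hP, hQ, ?_, hQ0, rfl, ?_⟩,
      hx, ?_⟩
    · intro j
      fin_cases j
      · exact hS
      · exact hT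
    · intro j
      fin_cases j
      · rfl
      · rfl
    · rw [Fin.sum_univ_two]
      exact hy

/-- **Main result.** Let `s ≠ 0` be a real algebraic number (for `e ^ e`: `s = 1`, base `1`) and
`D ≥ 1`.

(1) For all but at most `log₂ N + 1` of the integers `n` between `1` and `N` the numbers
`(n e ^ s) ^ (β e + γ)` are not in `Prods` (in particular transcendental), for all algebraic `β ≠ 0` and
`γ`; and among three positive real algebraic numbers `a_0`, `a_1`, `a_2` in place of `n`, with `a_1 / a_0`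
and `a_2 / a_0` multiplicatively independent, one has this property. The same for any transcendental
number in place of `e`.

(2) `FewBases` for the exponents `P(e)`, `P` nonconstant of degree at most `D`, with `r = 4 D - 3`, and for
any transcendental number in place of `e`.

(3) `FewBases` for the transcendental exponents `P(e) / Q(e)` with `r = 8 D - 5`, for
`P(e, π) / Q(e, π)` with `r = 32 D ^ 2 - 9`, and for the rational functions of any `k` numbers, of degree
at most `D` in each variable, with `r = 2 ((4 D) ^ k - 2 ^ k) - 1`.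

(4) `FewProds` for the products `a ^ P(e) e ^ S(e) (e ^ π) ^ T(e)`, with polynomials of degree at most `D`,
`P` nonconstant, with `r = 4 D - 2`, and for any transcendental number in place of `e`.

(5) `FewProds` for the products `a ^ x e ^ y (e ^ π) ^ z`, where `x`, `y`, `z` are quotients of values of
polynomials at `e` of degree at most `D` with a common denominator, `x` transcendental, with
`r = 8 D - 4`; for polynomials in `e` and `π` with `r = 32 D ^ 2 - 8`; and for the polynomials in any `k`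
numbers with `r = 2 ((4 D) ^ k - 2 ^ k)`.

(6) All nonzero algebraic numbers are in `Prods`. -/
theorem result (s : ℝ) (hs : IsAlgebraic ℚ s) (hs0 : s ≠ 0) :
    (∀ x : ℂ, Transcendental ℚ x → FewBases (affine x) s 1) ∧
    Transcendental ℚ (Complex.exp 1) ∧
    (∀ N : ℕ, {n : ℕ | 1 ≤ n ∧ n ≤ N ∧ BadBase (affine (Complex.exp 1)) s n}.ncard ≤
      Nat.log 2 N + 1) ∧
    ∀ D : ℕ, 1 ≤ D →
    -- polynomials
    (∀ x : ℂ, Transcendental ℚ x → FewBases (polys x D) s (4 * D - 3)) ∧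
    -- rational functions
    (FewBases (rats ![Complex.exp 1] D) s (8 * D - 5) ∧
      FewBases (rats ![Complex.exp 1, ((Real.pi : ℝ) : ℂ)] D) s (32 * D ^ 2 - 9) ∧
      ∀ (k : ℕ) (t : Fin k → ℂ), FewBases (rats t D) s (2 * ((4 * D) ^ k - 2 ^ k) - 1)) ∧
    -- products, polynomials
    (∀ x : ℂ, Transcendental ℚ x → FewProds (polyTriples x D) (4 * D - 2)) ∧
    -- products, rational functions
    (FewProds (ratTriples ![Complex.exp 1] D) (8 * D - 4) ∧
      FewProds (ratTriples ![Complex.exp 1, ((Real.pi : ℝ) : ℂ)] D) (32 * D ^ 2 - 8) ∧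
      ∀ (k : ℕ) (t : Fin k → ℂ), FewProds (ratTriples t D) (2 * ((4 * D) ^ k - 2 ^ k))) ∧
    -- algebraic numbers
    ∀ x : ℂ, x ≠ 0 → IsAlgebraic ℚ x → x ∈ Prods := by
  have h1 : ∀ x : ℂ, Transcendental ℚ x → FewBases (affine x) s 1 := by
    intro x hx
    refine fewBases_of hs hs0 fun m l hl hlL h => ?_
    have h1 := lt_poly (D := 1) hx le_rfl m l hl hlL fun i => by
      obtain ⟨y, hy, hyl⟩ := h i
      obtain ⟨P, h1, h2, rfl⟩ := affine_poly hy
      exact ⟨P, h1, h2, hyl⟩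
    omega
  refine ⟨h1, e_tr, fun N => ?_, fun D hD => ⟨fun x hx => part_poly hx hs hs0 hD,
    ⟨?_, ?_, fun k t => part_rat t hs hs0 hD⟩, fun x hx => part_triple hx hD,
    ⟨?_, ?_, fun k t => part_ratTriple t hD⟩, fun x hx0 hx => ?_⟩⟩
  · have h2 := (h1 _ e_tr).2 N
    rwa [pow_one] at h2
  · have h := part_rat ![Complex.exp 1] hs hs0 hD
    have e : 2 * ((4 * D) ^ 1 - 2 ^ 1) - 1 = 8 * D - 5 := by rw [pow_one, pow_one]; omega
    rwa [e] at h
  · have h := part_rat ![Complex.exp 1, ((Real.pi : ℝ) : ℂ)] hs hs0 hD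
    have e : 2 * ((4 * D) ^ 2 - 2 ^ 2) - 1 = 32 * D ^ 2 - 9 := by
      have : (4 * D) ^ 2 = 16 * D ^ 2 := by ring
      omega
    rwa [e] at h
  · have h := part_ratTriple ![Complex.exp 1] hD
    have e : 2 * ((4 * D) ^ 1 - 2 ^ 1) = 8 * D - 4 := by rw [pow_one, pow_one]; omega
    rwa [e] at h
  · have h := part_ratTriple ![Complex.exp 1, ((Real.pi : ℝ) : ℂ)] hD
    have e : 2 * ((4 * D) ^ 2 - 2 ^ 2) = 32 * D ^ 2 - 8 := by
      have : (4 * D) ^ 2 = 16 * D ^ 2 := by ring
      omega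
    rwa [e] at h
  · refine ⟨Complex.log x, ?_, Complex.exp_log hx0⟩
    refine Submodule.subset_span (Or.inr ?_)
    change IsAlgebraic ℚ (Complex.exp (Complex.log x))
    rwa [Complex.exp_log hx0]

end Pool.Agent.Results.MP_58ae59_nt.BasesTimesPowersOfE
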