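import Mathlib
import Pool.Agent.Run7.h683.MR.Y

set_option autoImplicit false

/-!
# MP_58ae59_nt: `e^e` and its multiples by numbers algebraic over `ℚ(e)` in random mixed radices

Question Q1 asks whether `e^e` is irrational. We look at the expansions of the numbers `β e^e`, where `β` is algebraic over
`ℚ(e)`, for instance of `e^e, e^(e+1), e^(e+2), …`, in mixed radices: the place values are `1 / (p_0 p_1 ⋯ p_n)`, where `p_k`
are independent random primes, `p_k` uniformly distributed on the primes up to `(k + 2) ^ θ`, `θ > 1`. The tail of the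
expansion of `y` after the place `n` is the fractional part of `p_0 ⋯ p_(n-1) y`.

(1) Let `β_1, …, β_s` be algebraic over `ℚ(e)` and linearly independent over `ℚ`. Almost surely (for all such families at
the same time), for all large `N`: all tuples of linearly independent integral forms of height `≤ H` in the numbers
`β_i e^e` are jointly equidistributed up to the place `N`, with words of length `L`, up to `ε`; or there is ONE exceptional
form `g`, with coefficients at most `exp (N ^ a)` and with `g(β e^e)` closer than `exp (- N ^ b)` to an integer,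
`0 < a < b < 1`, such that this is true for all tuples of forms which are linearly independent modulo `g`.

(2) In particular, almost surely, for all `J`, `L`, `ε > 0`, for all large `N`, all but at most one of the `J + 1` numbers
`e^e, e^(e+1), …, e^(e+J)` are jointly equidistributed up to `N`. If `e^e` is rational, the exceptional number is `e^e` for all
large `N`, and all the finite families from `e^(e+1), e^(e+2), …` are jointly normal in almost all these radices.

Proof. The second moment of the exponential sums of one number `y` up to the place `N` is small unless `y` is very close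
to a rational number with a denominator `≤ exp (N ^ a)` (bilinear sums over the last two primes, and a descent; see
MP_5b6025_nt.RandomMixedRadix). Two numbers `B e^e`, `B' e^e`, `B / B'` irrational, are never both so close to rational
numbers, by the measure of linear independence for the numbers algebraic over `ℚ(e)`. The theorem is true, with the same
proof, for every real number `t ≠ 0` in place of `e^e`; so it compares `e^e` with its multiples.
-/

namespace Pool.Agent.Results.MP_58ae59_nt.MultiplesInRandomRadices

open Filter Topology MeasureTheory ProbabilityTheory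

/-- the primes up to `(k + 2) ^ θ` -/
noncomputable def primes (θ : ℝ) (k : ℕ) : Finset ℕ := Nat.primesLE ⌊((k : ℝ) + 2) ^ θ⌋₊

/-- `p 0, p 1, …` are independent random primes, `p k` is uniformly distributed on the primes up to `(k + 2) ^ θ` -/
structure RandomPrimes (θ : ℝ) {Ω : Type} [MeasurableSpace Ω] (P : Measure Ω) (p : ℕ → Ω → ℕ) : Prop where
  mem : ∀ k ω, p k ω ∈ primes θ k
  indep : iIndepFun p P
  uniform : ∀ k, ∀ q ∈ primes θ k, P.real {ω | p k ω = q} = 1 / ((primes θ k).card : ℝ)

/-- the product `p 0 ⋯ p (n - 1)` -/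
def prod (p : ℕ → ℕ) (n : ℕ) : ℕ := ∏ k ∈ Finset.range n, p k

/-- the numbers `x i` are jointly equidistributed in the mixed radix `p` up to the place `N`, with words of length `L`
and up to the error `ε`: for all boxes the number of the places `n < N`, such that the fractional parts of
`p 0 ⋯ p (n + l - 1) * x i`, `l < L`, are in the box, is equal to the volume of the box times `N` up to `ε N` -/
def Equi (p : ℕ → ℕ) {m : ℕ} (x : Fin m → ℝ) (L N : ℕ) (ε : ℝ) : Prop :=
  ∀ u w : Fin L → Fin m → ℝ, (∀ l i, 0 ≤ u l i ∧ u l i ≤ w l i ∧ w l i ≤ 1) →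
    |(((Finset.range N).filter fun n => ∀ l i, u l i ≤ Int.fract ((prod p (n + (l : ℕ)) : ℝ) * x i) ∧
      Int.fract ((prod p (n + (l : ℕ)) : ℝ) * x i) < w l i).card : ℝ) - (∏ l, ∏ i, (w l i - u l i)) * N| ≤ ε * N

/-- the integral vectors `f j` are linearly independent modulo the line through `g` (or, for `g = 0`, linearly
independent) -/
def IndependentMod {s m : ℕ} (g : Fin s → ℤ) (f : Fin m → Fin s → ℤ) : Prop :=
  ∀ (c : Fin m → ℤ) (a : ℤ), (∀ i, ∑ j, c j * f j i = a * g i) → c = 0

/-- the distance of `t` to the nearest integer -/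
noncomputable def dist (t : ℝ) : ℝ := |t - round t|

/-- Outside at most one line all integral forms in the numbers `y i` are jointly equidistributed, at every scale: for
all `m, L, H, ε` and all large `N`, all `m`-tuples of linearly independent forms of height `≤ H` are jointly
equidistributed up to `N`; or there is a form `g ≠ 0` with coefficients `≤ exp (N ^ a)` whose value is closer than
`exp (- N ^ b)` to an integer, and all `m`-tuples of forms of height `≤ H` which are linearly independent modulo `g` are
jointly equidistributed up to `N`. -/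
def OneLine (a b : ℝ) (p : ℕ → ℕ) {s : ℕ} (y : Fin s → ℝ) : Prop :=
  ∀ (m L H : ℕ) (ε : ℝ), 0 < ε → ∀ᶠ N : ℕ in atTop,
    (∀ f : Fin m → Fin s → ℤ, (∀ j i, |f j i| ≤ H) → IndependentMod 0 f →
      Equi p (fun j => ∑ i, (f j i : ℝ) * y i) L N ε) ∨
    ∃ g : Fin s → ℤ, g ≠ 0 ∧ (∀ i, |(g i : ℝ)| ≤ Real.exp ((N : ℝ) ^ a)) ∧
      dist (∑ i, (g i : ℝ) * y i) < Real.exp (-(N : ℝ) ^ b) ∧
      ∀ f : Fin m → Fin s → ℤ, (∀ j i, |f j i| ≤ H) → IndependentMod g f →
        Equi p (fun j => ∑ i, (f j i : ℝ) * y i) L N ε

/-- the numbers `β i` are linearly independent over `ℚ` -/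
def Independent {s : ℕ} (β : Fin s → ℝ) : Prop := ∀ g : Fin s → ℤ, ∑ i, (g i : ℝ) * β i = 0 → g = 0

open Run7.h683.MR in
/-- In almost all the mixed radices of random primes: at every place at most one line of integral forms in the numbers
`β_i e^e`, `β_i` algebraic over `ℚ(e)`, is exceptional; all but at most one of the numbers `e^e, …, e^(e+J)` are jointly
equidistributed up to `N`, for all large `N`. -/
theorem result (θ : ℝ) (hθ : 1 < θ) :
    ∃ a b : ℝ, 0 < a ∧ a < b ∧ b < 1 ∧
      (∀ (Ω : Type) [MeasurableSpace Ω] (P : Measure Ω) [IsProbabilityMeasure P] (p : ℕ → Ω → ℕ),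
        RandomPrimes θ P p →
          -- (1) forms in the numbers `β_i e^e`
          (∀ᵐ ω ∂P, ∀ (s : ℕ) (β : Fin s → ℝ),
            (∀ i, IsAlgebraic (Algebra.adjoin ℤ ({Real.exp 1} : Set ℝ)) (β i)) → Independent β →
              OneLine a b (fun k => p k ω) (fun i => β i * Real.exp (Real.exp 1))) ∧
          -- (2) the numbers `e^e, e^(e+1), …, e^(e+J)`
          (∀ᵐ ω ∂P, ∀ (J L : ℕ) (ε : ℝ), 0 < ε → ∀ᶠ N : ℕ in atTop, ∃ j₀ : Fin (J + 1),
            Equi (fun k => p k ω) (fun j : Fin J => Real.exp (Real.exp 1 + ((j₀.succAbove j : Fin (J + 1)) : ℕ))) L N ε)) ∧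
      -- such random primes exist
      ∃ (Ω : Type) (_ : MeasurableSpace Ω) (P : Measure Ω) (_ : IsProbabilityMeasure P) (p : ℕ → Ω → ℕ),
        RandomPrimes θ P p := by
  obtain ⟨a, b, ha, hab, hb, h⟩ := one_line.{0} (growth θ hθ)
  have hz : Run7.h683.AB.MT (Real.exp 1) := Run7.h683.AB.mt_cases (Or.inl rfl)
  refine ⟨a, b, ha, hab, hb, ?_, ?_⟩
  · intro Ω _ P _ p hp
    have h1 := one_line_mul P p (h Ω P p (uniform_of_indep hp.mem hp.indep hp.uniform)) hz
      (t := Real.exp (Real.exp 1)) (Real.exp_pos _).ne'
    refine ⟨h1, ?_⟩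
    filter_upwards [h1] with ω hω
    intro J L ε hε
    have halg : ∀ j : Fin (J + 1), IsAlgebraic (Algebra.adjoin ℤ ({Real.exp 1} : Set ℝ)) (Real.exp 1 ^ (j : ℕ)) :=
      fun j => alg_pow _ _
    have hind : IndepZ (fun j : Fin (J + 1) => Real.exp 1 ^ (j : ℕ)) := indepZ_pow hz J
    have h2 := hω (J + 1) (fun j => Real.exp 1 ^ (j : ℕ)) halg hind
    have h3 := OneLine.joint h2 L ε hε
    filter_upwards [h3] with N hN
    obtain ⟨j₀, hj₀⟩ := hN
    refine ⟨j₀, ?_⟩
    have h4 : (fun j : Fin J => Real.exp 1 ^ ((j₀.succAbove j : Fin (J + 1)) : ℕ) * Real.exp (Real.exp 1)) =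
        fun j : Fin J => Real.exp (Real.exp 1 + ((j₀.succAbove j : Fin (J + 1)) : ℕ)) := by
      funext j
      rw [Real.exp_add, ← Real.exp_nat_mul, mul_one, mul_comm]
    rw [← h4]
    exact hj₀
  · obtain ⟨Ω, i1, P, i2, p, h5, h6, h7⟩ := exists_uniform (Sk θ) (growth θ hθ).ne
    exact ⟨Ω, i1, P, i2, p, ⟨h5, h6, h7⟩⟩

end Pool.Agent.Results.MP_58ae59_nt.MultiplesInRandomRadices
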