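import Pool.Agent.Run7.h788.ExpSp

/-!
# The exponents `P(e)`: among the polynomials of degree at most `D` only a space of dimension `2 √D + 1` can
# have an algebraic power `e ^ {P(e)}`

The number `e ^ e` is the member `P = x` of the family `e ^ {P(e)}`, `P` a polynomial with algebraic
coefficients, or more generally of the family of the numbers

  `exp(z (c_1 e^{s_1} + … + c_n e^{s_n}))`

with algebraic `c_i`, `s_i` and a fixed complex number `z ≠ 0` (here `z = 1`).  Let `LogForms` be the space of
all linear forms in `1` and logarithms of algebraic numbers, with algebraic coefficients: `x` is in this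
space if `e^x` is algebraic, or a product of powers `α^β` of algebraic numbers with algebraic exponents
times `e^γ`, `γ` algebraic.

**Theorem.** Let `F` be any space of complex numbers of dimension `N` over the field of algebraic numbers
(for instance `0`).

(1) For all finite sets `S` and `B` of algebraic numbers, `B` not empty, the vectors `(c_s)_{s ∈ S}` of
algebraic numbers for which `z ∑ c_s e^s` is in `LogForms + F` form a space of dimension at most

  `|S + B| / |B| + |B| - 1 + N`.

If `S` is the set of the `m_1 g_1 + … + m_r g_r`, `0 ≤ m_i < M`, with algebraic numbers `g_i` which are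
linearly independent over `ℚ`, one can choose for `B` the same set with `√M` in place of `M`, and the bound
is `C_r √|S| + N`, out of `|S|`.

(2) The polynomials `P` of degree at most `D` with algebraic coefficients for which `z P(e)` is in
`LogForms + F` form a space of dimension at most `2 √D + 1 + N`, out of `D + 1`.

(3) If `P_1, …, P_m` are polynomials of degree at most `D` which are linearly independent over the field of
algebraic numbers and `m > 2 √D + 1 + N`, then for one `i` all the numbers `exp(z P_i(e) + f)`, `f ∈ F`, are
transcendental.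

(4) For all real numbers `x ≠ 0` at most `2 √D + 1` of the numbers `exp(x e^n)`, `0 ≤ n ≤ D`, are
algebraic.  For `x = 1` these are the numbers `e ^ (e ^ n)`.

It is classical that one of the numbers `e ^ e`, `e ^ (e ^ 2)` is transcendental (Brownawell, Waldschmidt),
and that the exponentials of long progressions `z e^n` are not all algebraic (the six exponentials
theorem); (3) for arbitrary independent polynomials and with a bound of the order `√D` seems to be new.
The starting result `MP_9cd479_nt.RationalExponents` is about rational functions of degree at most `D` in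
any transcendental number, with the bound `4 D`.

**The proof.**  Let `W` be the space of the numbers `z ∑ c_s e^s` in question and `X` the space generated by
the `e^b`, `b ∈ B`.  By the theorem of Lindemann and Weierstrass `W` is isomorphic to the space of the
vectors `(c_s)` and `dim X = |B|`, and the products are in a space of dimension at most `|S + B|`.  The
product inequality `dim X dim W ≤ dim X W + dim X (dim X - 1)` for `W ⊆ LogForms`
(`Pool.Agent.W254.HP.product_le`) is the hyperplane case of the linear subgroup theorem of Waldschmidt and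
Roy.
-/

set_option autoImplicit false

noncomputable section

namespace Pool.Agent.Results.MP_58ae59_nt.PolynomialExponents

open Polynomial
open scoped Pointwise

/-- The field of algebraic numbers. -/
abbrev Qbar : IntermediateField ℚ ℂ := algebraicClosure ℚ ℂ

/-- The linear combinations, with algebraic coefficients, of `1` and logarithms of algebraic numbers. -/
def LogForms : Submodule Qbar ℂ :=
  Submodule.span Qbar ({1} ∪ {z : ℂ | IsAlgebraic ℚ (Complex.exp z)})

/-- The vectors `(c_s)` of algebraic numbers such that `z ∑ c_s e^s` is in the space `L`. -/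
def vectors (L : Submodule Qbar ℂ) (S : Finset ℂ) (z : ℂ) : Submodule Qbar (S → Qbar) :=
  L.comap (Fintype.linearCombination Qbar (fun s : S => z * Complex.exp s))

/-- The polynomials `P` of degree at most `D` such that `z P(e)` is in the space `L`. -/
def polynomials (L : Submodule Qbar ℂ) (z : ℂ) (D : ℕ) : Submodule Qbar Qbar[X] :=
  degreeLT Qbar (D + 1) ⊓
    L.comap ((LinearMap.mulLeft Qbar z).comp (aeval (Complex.exp 1)).toLinearMap)

theorem trans_e : Transcendental ℚ (Complex.exp 1) := by
  intro h
  have h1 := Pool.Agent.H340R2.LW.lindemann_weierstrass (Finset.univ : Finset (Fin 2)) ![0, 1]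
    ![-Complex.exp 1, 1]
    (by
      intro i _
      fin_cases i
      · exact isAlgebraic_zero
      · exact isAlgebraic_one)
    (by
      intro i _
      fin_cases i
      · exact h.neg
      · exact isAlgebraic_one)
    (by
      intro i _ j _ hij
      fin_cases i <;> fin_cases j <;> simp_all)
    (by simp [Fin.sum_univ_two]) 1 (Finset.mem_univ 1)
  simp at h1

/-- Statement (1). -/
def SumsetBound : Prop :=
  ∀ (S B : Finset ℂ), (∀ s ∈ S, IsAlgebraic ℚ s) → (∀ b ∈ B, IsAlgebraic ℚ b) →
    ∀ z : ℂ, z ≠ 0 → ∀ F : Submodule Qbar ℂ, Module.Finite Qbar F →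
    B.card * Module.finrank Qbar (vectors (LogForms ⊔ F) S z) ≤
      (S + B).card + B.card * (B.card - 1 + Module.finrank Qbar F)

/-- Statement (2). -/
def DegreeBound : Prop :=
  ∀ (D : ℕ) (z : ℂ), z ≠ 0 → ∀ F : Submodule Qbar ℂ, Module.Finite Qbar F →
    (Module.finrank Qbar (polynomials (LogForms ⊔ F) z D) : ℝ) ≤
      2 * √(D : ℝ) + 1 + Module.finrank Qbar F

/-- Statement (3). -/
def OneTranscendental : Prop :=
  ∀ (D m : ℕ) (z : ℂ), z ≠ 0 → ∀ F : Submodule Qbar ℂ, Module.Finite Qbar F →
    ∀ P : Fin m → Qbar[X], (∀ i, (P i).natDegree ≤ D) → LinearIndependent Qbar P →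
    2 * √(D : ℝ) + 1 + Module.finrank Qbar F < m →
    ∃ i, ∀ f ∈ F, Transcendental ℚ (Complex.exp (z * aeval (Complex.exp 1) (P i) + f))

/-- Statement (4). -/
def FewAlgebraicPowers : Prop :=
  ∀ (D : ℕ) (x : ℝ), x ≠ 0 → ∀ T : Finset ℕ,
    (∀ n ∈ T, n ≤ D ∧ IsAlgebraic ℚ (Real.exp (x * Real.exp n))) →
    (T.card : ℝ) ≤ 2 * √(D : ℝ) + 1

/-- **Main result.** -/
theorem result : SumsetBound ∧ DegreeBound ∧ OneTranscendental ∧ FewAlgebraicPowers := by
  refine ⟨fun S B hS hB z hz F hF => Run7.h788.ExpSp.exc_bound F hz S B hS hB,
    fun D z hz F hF => Run7.h788.ExpSp.polys_sqrt F trans_e hz D,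
    fun D m z hz F hF P hP hli hm =>
      Run7.h788.ExpSp.exists_transcendental' trans_e hz hP hli hm, fun D x hx T hT => ?_⟩
  by_contra hcon
  push Not at hcon
  have hli : LinearIndependent Qbar
      (fun i : Fin T.card => (X : Qbar[X]) ^ (T.orderEmbOfFin rfl i)) := by
    have h1 : LinearIndependent Qbar (fun n : ℕ => (X : Qbar[X]) ^ n) := by
      have := (Polynomial.basisMonomials Qbar).linearIndependent
      simpa only [coe_basisMonomials, monomial_one_right_eq_X_pow] using this
    exact h1.comp _ (T.orderEmbOfFin rfl).injective
  obtain ⟨i, hi⟩ := Run7.h788.ExpSp.exists_transcendental' (F := ⊥) trans_e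
    (z := (x : ℂ)) (by exact_mod_cast hx) (D := D)
    (P := fun i : Fin T.card => (X : Qbar[X]) ^ (T.orderEmbOfFin rfl i))
    (fun i => by
      rw [natDegree_X_pow]
      exact (hT _ (Finset.orderEmbOfFin_mem T rfl i)).1) hli (by
      rw [finrank_bot, Nat.cast_zero, add_zero]
      exact hcon)
  refine hi 0 (Submodule.zero_mem _) ?_
  have h2 := (hT _ (Finset.orderEmbOfFin_mem T rfl i)).2.algebraMap (A := ℂ)
  have h3 : Complex.exp ((x : ℂ) * aeval (Complex.exp 1)
      ((X : Qbar[X]) ^ (T.orderEmbOfFin rfl i)) + 0) =
      algebraMap ℝ ℂ (Real.exp (x * Real.exp ((T.orderEmbOfFin rfl i : ℕ) : ℝ))) := by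
    rw [map_pow, aeval_X, add_zero, ← Complex.exp_nat_mul, mul_one]
    change _ = ((Real.exp (x * Real.exp ((T.orderEmbOfFin rfl i : ℕ) : ℝ)) : ℝ) : ℂ)
    push_cast
    rfl
  rw [h3]
  exact h2

end Pool.Agent.Results.MP_58ae59_nt.PolynomialExponents
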