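import Mathlib
import Pool.Agent.Run7.h360.CF.Pow

/-!
# The continued fractions and the digits of `e^e` and of `e^(i+je)`

Question Q1 asks if `e^e` is irrational.  We compare the descriptions of the powers of `e` whose exponents
are dependent over the rational numbers together with `1`, such as `e^(i+je)` for integers `i, j`.

Let `y = [a_0; a_1, a_2, …]` be the regular continued fraction of a real number, `q_i` the denominators
of its convergents.  The places `u+1, …, v` are *copied at the price `N`* if, with the exception of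
places up to some `s` with `q_s ≤ e^N q_u`, the partial quotients `a_i` at these places are equal to
the partial quotients `a_{i-d}` for one `d > 0` (`Copied`; the copied part may begin at any earlier
place and may overlap its copy, so that all periodic stretches with a short period are included).  A
number `y` is *simple up to the scale `X` with the parameters `r, K, N`* (`Simple`) if

* after the removal of at most `K` places all stretches of the partial quotients `a_{i+1}` with
  `q_i ≤ e^X` are copied at the price `N`; or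
* for some base `b`, after the removal of at most `K` places all stretches `u+1, …, v ≤ L` of the
  digits, `X ≤ L log b`, are terms of sequences whose power series satisfy modulo `t^(v+1)` an algebraic
  equation of degree `≤ r` with coefficients of degree `≤ k + r u`, `(k+1) log b ≤ N`; or
* the fractional part `z` of `y` satisfies `|P(z)| ≤ e^(-X)` for an integer polynomial `P ≠ 0` of degree
  `≤ r` with coefficients `≤ e^N`.

So `K` is the number of the breaks, `N` the price of the description and `X` the length.  We prove, at every scale `X`: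

* for a finite family of real numbers `β_i` the ℚ-span of the `β_i`, for which some Möbius image (with
  integral coefficients of height `≤ H`) of `e^(β_i)` is simple, contains no rational number except `0`;
* in particular the integral points `(i, j)`, `|i|, |j| ≤ D`, for which some Möbius image of `e^(i+je)` is
  simple, are on one line through the origin.  So at most one of the numbers `e^e, e^(e+1), e^(e+2), …, e^(2e+1), …`
  (exponents which are not proportional) has a simple continued fraction up to the scale `X`, or simple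
  digits in some base, or good approximations by algebraic numbers of bounded degree;
* if `e^e` is rational, or algebraic, then the line is `i = 0` at all large scales: all numbers
  `e^(i+je)`, `i ≠ 0`, and their Möbius images have complicated continued fractions and digits.

Here simple means: with `K` breaks and at a price `N` with `A^(K+1) (N + log H + 1) < X`, where `A` does not
depend on `H`, `K`, `N`, `X` and the Möbius transformations.

Proof.  A copy at the places `s+1, …, v` of the continued fraction gives the quadratic polynomial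
`(q_{r-1} X - p_{r-1}) (q_s X - p_s) - (q_{s-1} X - p_{s-1}) (q_r X - p_r)`, whose value at `y` is, up to the
sign, not changed by a common letter and so at most `2 / q_v`; its leading coefficient is not zero.  The
breaks of the descriptions divide the interval `[0, X]` of scales into few intervals, and on each of
them all the numbers have integer polynomials with small coefficients and a very small value
(`Pool.Agent.Run7.h360.CF`).  Möbius images transform these polynomials.  The number `e` is algebraic over the
field of the powers with dependent exponents; so these have a joint measure (helper168, `Run7.h168.Mult`),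
which comes from the transcendence measure of `e`.  At the level of single exponents, the fact that at most
one of the `e^(e+q)`, `q` rational, is algebraic is trivial; the comparison of the continued fractions and
of the digits at every scale is new.
-/

set_option autoImplicit false

namespace Pool.Agent.Results.MP_58ae59_nt.SimplePowersOfE

open Polynomial

/-- the partial quotient `a_{i+1}` of `y = [a_0; a_1, a_2, …]` (`none` if the continued fraction has ended) -/
noncomputable def letter (y : ℝ) (i : ℕ) : Option ℝ := (GenContFract.of y).partDens.get? i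

/-- the denominator `q_i` of `[a_0; a_1, …, a_i]` (the last denominator if the continued fraction has
ended) -/
noncomputable def den (y : ℝ) (i : ℕ) : ℝ := (GenContFract.of y).dens i

/-- the places `u+1, …, v` are copied at the price `N`: up to the place `s`, `q_s ≤ e^N q_u`, they are
arbitrary, and from then on the partial quotients are equal to those `s - r` places before -/
def Copied (y : ℝ) (N : ℝ) (u v : ℕ) : Prop :=
  ∃ r s, r < s ∧ den y s ≤ Real.exp N * den y u ∧ ∀ i, s ≤ i → i < v → letter y i = letter y (i - (s - r))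

/-- the partial quotients `a_{i+1}` with `q_i ≤ e^X` are copied at the price `N` on all stretches which
contain none of at most `K` places -/
def Pieces (y : ℝ) (K : ℕ) (N X : ℝ) : Prop :=
  ∃ T : Finset ℕ, T.card ≤ K ∧ ∀ u v, u < v → den y (v - 1) ≤ Real.exp X → (∀ t ∈ T, t ≤ u ∨ v < t) →
    Copied y N u v

/-- the `i`-th digit of `y` after the point in base `b` -/
noncomputable def digit (b : ℕ) (y : ℝ) (i : ℕ) : ℤ := ⌊y * (b : ℝ) ^ i⌋ % (b : ℤ)

/-- the polynomial `s_1 X + s_2 X^2 + ⋯ + s_L X^L` -/
noncomputable def seqPoly (s : ℕ → ℤ) (L : ℕ) : ℚ[X] := ∑ l ∈ Finset.Icc 1 L, C (s l : ℚ) * X ^ l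

/-- there is a nonzero polynomial `P(X, Y)` over `ℚ` of degree `≤ r` in `Y` and `≤ k` in `X` such
that `P(X, S(X))` is divisible by `X^(L+1)`, where `S` is the polynomial of the first `L` terms
of `s` -/
def AlgRelation (s : ℕ → ℤ) (r L k : ℕ) : Prop :=
  ∃ P : ℚ[X][X], P ≠ 0 ∧ P.natDegree ≤ r ∧ (∀ j, (P.coeff j).natDegree ≤ k) ∧
    X ^ (L + 1) ∣ P.eval (seqPoly s L)

/-- the digits of `y` at the places `u+1, …, v` are the terms at these places of a sequence `s` of base `b`
digits, and the first `v` terms of `s` satisfy an algebraic relation of degree `≤ r` with coefficients of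
degree `≤ k + r u` -/
def Described (b : ℕ) (y : ℝ) (r k u v : ℕ) : Prop :=
  ∃ s : ℕ → ℤ, (∀ l, 0 ≤ s l ∧ s l < b) ∧ (∀ l, u < l → l ≤ v → s l = digit b y l) ∧
    AlgRelation s r v (k + r * u)

/-- the first `L` digits of `y` are described on all stretches which contain none of at most `K` places -/
def PieceByPiece (b : ℕ) (y : ℝ) (r K L k : ℕ) : Prop :=
  ∃ T : Finset ℕ, T.card ≤ K ∧
    ∀ u v, u ≤ v → v ≤ L → (∀ t ∈ T, t ≤ u ∨ v < t) → Described b y r k u v

/-- the fractional part of `y` almost satisfies an algebraic equation -/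
def NearAlg (r : ℕ) (N X y : ℝ) : Prop :=
  ∃ P : ℤ[X], P ≠ 0 ∧ P.natDegree ≤ r ∧ (∀ i, |((P.coeff i : ℤ) : ℝ)| ≤ Real.exp N) ∧
    |(aeval (Int.fract y) P : ℝ)| ≤ Real.exp (-X)

/-- `y` is simple up to the scale `X`, with `K` breaks and at the price `N` -/
def Simple (r K : ℕ) (N X y : ℝ) : Prop :=
  Pieces y K N X ∨
    (∃ b k L : ℕ, 2 ≤ b ∧ (k + 1) * Real.log b ≤ N ∧ X ≤ L * Real.log b ∧ PieceByPiece b y r K L k) ∨
    NearAlg r N X y

/-- `y` is the image of `w` under a Möbius transformation with integral coefficients of height `≤ H`, and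
`|y| ≤ H` -/
def Image (H w y : ℝ) : Prop :=
  |y| ≤ H ∧ ∃ a b c d : ℤ, a * d - b * c ≠ 0 ∧ |(a : ℝ)| ≤ H ∧ |(b : ℝ)| ≤ H ∧ |(c : ℝ)| ≤ H ∧ |(d : ℝ)| ≤ H ∧
    y * (c * w + d) = a * w + b

/-- **(1)** Let `β_i` be a finite family of real numbers.  For every `r` there is `A ≥ 1` such that, at every
scale `X`: if for the `i` in `J` the number `y_i` is a Möbius image of height `≤ H` of `e^(β_i)` and simple up
to `X` with `K_i` breaks at the price `N_i`, and `A^(∑ K_i + 1) (∑ N_i + log H + 1) < X`, then no nonzero
integer is an integral linear combination of the `β_i`, `i` in `J` (so their ℚ-span contains no rational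
number except `0`).

**(2)** For all `D`, `r` there is `A ≥ 1` such that, if `(i, j)` and `(k, l)` are integral points with
coordinates `≤ D` which are not proportional, and two Möbius images of height `≤ H` of `e^(i+je)` and of
`e^(k+le)` are simple up to `X` with `K`, `K'` breaks at the prices `N`, `N'`, then
`X ≤ A^(K+K'+1) (N + N' + log H + 1)`.

**(3)** If `e^e` is algebraic of degree at most `r` (for example rational), then for every `D` there is `A ≥ 1`
such that, if a Möbius image of height `≤ H` of a number `e^(i+je)`, `|i|, |j| ≤ D`, `i ≠ 0`, is simple up to `X`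
with `K` breaks at the price `N`, then `X ≤ A^(K+1) (N + log H + 1)`. -/
theorem result :
    (∀ (κ : Type) [Fintype κ] [DecidableEq κ] (β : κ → ℝ) (r : ℕ), ∃ A : ℝ, 1 ≤ A ∧
      ∀ (H : ℝ) (J : Finset κ) (y : κ → ℝ) (K : κ → ℕ) (N : κ → ℝ) (X : ℝ), 1 ≤ H →
        (∀ i ∈ J, Image H (Real.exp (β i)) (y i) ∧ 0 ≤ N i ∧ Simple r (K i) (N i) X (y i)) →
        A ^ (∑ i ∈ J, K i + 1) * (∑ i ∈ J, N i + Real.log H + 1) < X →
        ∀ (c : κ → ℤ) (n : ℤ), ∑ i ∈ J, (c i : ℝ) * β i = n → n = 0) ∧
    (∀ D r : ℕ, ∃ A : ℝ, 1 ≤ A ∧ ∀ i j k l : ℤ, |i| ≤ D → |j| ≤ D → |k| ≤ D → |l| ≤ D → i * l - j * k ≠ 0 →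
      ∀ (H y y' : ℝ) (K K' : ℕ) (N N' X : ℝ), 1 ≤ H → Image H (Real.exp (i + j * Real.exp 1)) y →
        Image H (Real.exp (k + l * Real.exp 1)) y' → 0 ≤ N → 0 ≤ N' → Simple r K N X y → Simple r K' N' X y' →
        X ≤ A ^ (K + K' + 1) * (N + N' + Real.log H + 1)) ∧
    ∀ D r : ℕ, (∃ P : ℤ[X], P ≠ 0 ∧ P.natDegree ≤ r ∧ aeval (Real.exp (Real.exp 1)) P = 0) →
      ∃ A : ℝ, 1 ≤ A ∧ ∀ i j : ℤ, |i| ≤ D → |j| ≤ D → i ≠ 0 → ∀ (H y : ℝ) (K : ℕ) (N X : ℝ), 1 ≤ H →
        Image H (Real.exp (i + j * Real.exp 1)) y → 0 ≤ N → Simple r K N X y →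
        X ≤ A ^ (K + 1) * (N + Real.log H + 1) := by
  have hx : Pool.Agent.TH456.TM.MeasT ((Real.exp 1 : ℝ) : ℂ) := Pool.Agent.R473.JC.measT_three _ (Or.inl rfl)
  have hpow : ∀ β : ℝ, Real.exp 1 ^ β = Real.exp β := fun β => by rw [← Real.exp_mul, one_mul]
  have hmon : ∀ i j : ℤ, Real.exp 1 ^ i * Real.exp (Real.exp 1) ^ j = Real.exp (i + j * Real.exp 1) := by
    intro i j
    rw [← Real.rpow_intCast, ← Real.rpow_intCast, ← Real.exp_mul, ← Real.exp_mul, ← Real.exp_add]
    congr 1
    ring
  have key : ∀ D r : ℕ, ∃ A : ℝ, 1 ≤ A ∧ ∀ i j k l : ℤ, |i| ≤ D → |j| ≤ D → |k| ≤ D → |l| ≤ D →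
      i * l - j * k ≠ 0 →
      ∀ (H y y' : ℝ) (K K' : ℕ) (N N' X : ℝ), 1 ≤ H → Image H (Real.exp (i + j * Real.exp 1)) y →
        Image H (Real.exp (k + l * Real.exp 1)) y' → 0 ≤ N → 0 ≤ N' → Simple r K N X y → Simple r K' N' X y' →
        X ≤ A ^ (K + K' + 1) * (N + N' + Real.log H + 1) := by
    intro D r
    obtain ⟨A, hA, h⟩ := Run7.h360.CF.simple_line (Real.exp 1) hx (Real.exp (Real.exp 1)) (Real.exp_pos _).ne' D r
    refine ⟨A, hA, fun i j k l hi hj hk hl hd H y y' K K' N N' X hH hy hy' hN hN' hs hs' => ?_⟩
    exact h i j k l hi hj hk hl hd H y y' K K' N N' X hH (by rw [hmon]; exact hy) (by rw [hmon]; exact hy')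
      hN hN' hs hs'
  refine ⟨?_, key, ?_⟩
  · intro κ _ _ β r
    obtain ⟨A, hA, h⟩ := Run7.h360.CF.simple_powers (Real.exp 1) hx (Real.exp_pos 1) β r
    refine ⟨A, hA, fun H J y K N X hH hs hX c n hc => ?_⟩
    refine h H J y K N X hH (fun i hi => ?_) hX c n hc
    rw [hpow]
    exact hs i hi
  · intro D r halg
    obtain ⟨A, hA, h⟩ := key (D + 1) r
    obtain ⟨M, hM0, hM⟩ := Run7.h360.CF.simple_of_alg _ r halg
    obtain ⟨W, hW⟩ : ∃ W : ℝ, W = Real.log (Real.exp (Real.exp 1) + 1) := ⟨_, rfl⟩
    have hee := Real.exp_pos (Real.exp 1)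
    have hW0 : 0 ≤ W := by rw [hW]; exact Real.log_nonneg (by linarith)
    refine ⟨A * (M + W + 1), by nlinarith, fun i j hi hj hi0 H y K N X hH hy hN hs => ?_⟩
    have hD : ((D : ℕ) : ℤ) ≤ ((D + 1 : ℕ) : ℤ) := by push_cast; omega
    have hH' : H ≤ H * (Real.exp (Real.exp 1) + 1) := by nlinarith
    have h1 : Real.exp (Real.exp 1) + 1 ≤ H * (Real.exp (Real.exp 1) + 1) := by nlinarith
    have himg : Image (H * (Real.exp (Real.exp 1) + 1)) (Real.exp (i + j * Real.exp 1)) y := by
      obtain ⟨h2, a, b, c, d, h3, h4, h5, h6, h7, h8⟩ := hy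
      exact ⟨h2.trans hH', a, b, c, d, h3, h4.trans hH', h5.trans hH', h6.trans hH', h7.trans hH', h8⟩
    have himg' : Image (H * (Real.exp (Real.exp 1) + 1)) (Real.exp (((0 : ℤ) : ℝ) + ((1 : ℤ) : ℝ) * Real.exp 1))
        (Real.exp (Real.exp 1)) := by
      refine ⟨?_, 1, 0, 0, 1, by norm_num, ?_, ?_, ?_, ?_, ?_⟩
      · rw [abs_of_pos hee]; linarith
      · push_cast; rw [abs_one]; linarith
      · push_cast; rw [abs_zero]; linarith
      · push_cast; rw [abs_zero]; linarith
      · push_cast; rw [abs_one]; linarith
      · push_cast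
        rw [zero_add, one_mul]
        ring
    have h9 := h i j 0 1 (hi.trans hD) (hj.trans hD) (by rw [abs_zero]; positivity)
      (by rw [abs_one]; push_cast; omega) (by rw [mul_one, mul_zero, sub_zero]; exact hi0) _ y _ K 0 N M X
      (hH.trans hH') himg himg' hN hM0 hs (hM 0 X)
    refine h9.trans ?_
    have hlog : Real.log (H * (Real.exp (Real.exp 1) + 1)) = Real.log H + W := by
      rw [hW, Real.log_mul (by linarith) (by linarith)]
    have hlH : 0 ≤ Real.log H := Real.log_nonneg hH
    rw [hlog, add_zero, mul_pow]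
    have h2 : M + W + 1 ≤ (M + W + 1) ^ (K + 1) := le_self_pow₀ (by linarith) (by omega)
    rw [mul_assoc]
    refine mul_le_mul_of_nonneg_left ?_ (by positivity)
    have h3 : N + M + (Real.log H + W) + 1 ≤ (M + W + 1) * (N + Real.log H + 1) := by nlinarith
    exact h3.trans (mul_le_mul_of_nonneg_right h2 (by linarith))

end Pool.Agent.Results.MP_58ae59_nt.SimplePowersOfE
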